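import Pool.Agent.MP_d32a63_an.H58.Spec

/-! The row `LIMA`: the limit of the cell fields along the ultrafilter. -/

open Set Filter Topology Metric
open Complex (I)
open Pool.Agent.MP_d32a63_an.H95 (Core Sec jet W0 Flat)
open Pool.Agent.MP_d32a63_an.H58

namespace Pool.Agent.MP_d32a63_an.H96

theorem uf_le : UF ≤ atTop := by
  unfold UF
  rw [← Nat.cofinite_eq_atTop]
  exact hyperfilter_le_cofinite

theorem uf_ne : UF.NeBot := by
  unfold UF
  infer_instance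

/-- Bounded sequences converge along the ultrafilter. -/
theorem bddlim (a : ℕ → ℂ) (K : ℝ) (h : ∀ᶠ J in UF, ‖a J‖ ≤ K) :
    Tendsto a UF (𝓝 (limUnder UF a)) := by
  have h1 : ((Ultrafilter.map a (hyperfilter ℕ) : Ultrafilter ℂ) : Filter ℂ) ≤
      𝓟 (closedBall (0 : ℂ) K) := by
    rw [le_principal_iff]
    have h2 : a ⁻¹' closedBall (0 : ℂ) K ∈ UF := by
      filter_upwards [h] with J hJ
      simpa using hJ
    exact h2
  obtain ⟨x, -, hx⟩ := (isCompact_closedBall (0 : ℂ) K).ultrafilter_le_nhds _ h1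
  exact tendsto_nhds_limUnder ⟨x, hx⟩

/-- A quadratic remainder gives a derivative. -/
theorem hasDerivAt_of_sq {f : ℂ → ℂ} {m x : ℂ} {C : ℝ}
    (h : ∀ᶠ y in 𝓝 x, ‖f y - f x - m * (y - x)‖ ≤ C * ‖y - x‖ ^ 2) : HasDerivAt f m x := by
  rw [hasDerivAt_iff_isLittleO]
  refine Asymptotics.IsLittleO.of_bound fun ε hε => ?_
  have h0 : Tendsto (fun y : ℂ => C * ‖y - x‖) (𝓝 x) (𝓝 0) := by
    have hc : Continuous fun y : ℂ => C * ‖y - x‖ := by fun_prop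
    simpa using hc.tendsto x
  filter_upwards [h, h0.eventually (eventually_le_nhds hε)] with y hy hy2
  have e1 : f y - f x - (y - x) • m = f y - f x - m * (y - x) := by
    rw [smul_eq_mul, mul_comm]
  rw [e1]
  refine hy.trans ?_
  have := norm_nonneg (y - x)
  nlinarith

/-- A point off finitely many segments has a disc that misses them. -/
theorem far_segs (A : Set Seg) (hA : A.Finite) (z : ℂ) (hz : ∀ g ∈ A, z ∉ segment ℝ g.p g.v) :
    ∃ R > 0, ∀ g ∈ A, Disjoint (ball z R) (segment ℝ g.p g.v) := by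
  have hc : IsClosed (⋃ g ∈ A, segment ℝ g.p g.v) := by
    refine hA.isClosed_biUnion fun g _ => ?_
    rw [segment_eq_image]
    exact (isCompact_Icc.image (by fun_prop)).isClosed
  have hm : z ∈ (⋃ g ∈ A, segment ℝ g.p g.v)ᶜ := by
    simp only [mem_compl_iff, mem_iUnion, not_exists]
    exact fun g hg => hz g hg
  obtain ⟨R, hR, hsub⟩ := Metric.isOpen_iff.1 hc.isOpen_compl z hm
  refine ⟨R, hR, fun g hg => Set.disjoint_left.2 fun y hy hy2 => hsub hy ?_⟩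
  exact mem_biUnion hg hy2

section

variable {n : ℕ} {s : Core n} {Γ : Set Seg} {τ K : ℝ} {βf : ℝ → ℝ} {e : ℂ} {d ℓ : ℕ → ℝ}
  {G : ℕ → ℕ → ℂ → ℂ} {Φ μ c : ℕ → ℤ × ℤ → ℂ → ℂ}

theorem d_lim (hS : Sq s Γ τ K βf e d ℓ G Φ μ c) : Tendsto d UF (𝓝 0) := hS.lim.mono_left uf_le

theorem l_lim (hS : Sq s Γ τ K βf e d ℓ G Φ μ c) : Tendsto ℓ UF (𝓝 0) := by
  refine squeeze_zero (fun J => (hS.cells J).l0.le) (fun J => ?_) (d_lim hS)
  have h1 := (hS.cells J).ld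
  have h2 := (hS.cells J).d0
  have h3 := (hS.cells J).d1
  nlinarith

/-- A disc around `z` off the closure on which the discs of values contain a smaller disc. -/
theorem loc (s : Core n) (τ : ℝ) {z : ℂ} (hz : z ∉ closure s.W) {ρ : ℝ} (hρ : ρ < τ / 50) :
    ∃ R > 0, Disjoint (ball z R) (closure s.W) ∧ ∀ y ∈ ball z R,
      ball (s.F 0 z + τ * actr) ρ ⊆ ball (s.F 0 y + τ * actr) (τ / 50) := by
  obtain ⟨R1, hR1, h1⟩ := Metric.isOpen_iff.1 isClosed_closure.isOpen_compl z hz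
  obtain ⟨R2, hR2, h2⟩ := Metric.continuous_iff.1 (s.cont 0) z (τ / 50 - ρ) (by linarith)
  refine ⟨min R1 R2, lt_min hR1 hR2, Set.disjoint_left.2 fun y hy hy2 =>
    h1 (ball_subset_ball (min_le_left _ _) hy) hy2, fun y hy => ?_⟩
  refine ball_subset ?_
  have h3 := h2 y (lt_of_lt_of_le hy (min_le_right _ _))
  rw [dist_add_right, dist_comm]
  linarith

theorem cell_sub (hB : BASIC) {l : ℝ} (hl : 0 < l) (z : ℂ) {R : ℝ} (hR : 4 * l < R) :
    cen l (cl l z) ∈ ball z R ∧ ball (cen l (cl l z)) (3 * l) ⊆ ball z R := by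
  have h1 : dist (cen l (cl l z)) z ≤ l := by
    rw [dist_comm, dist_eq_norm]
    exact hB.cl1 l z hl
  exact ⟨by rw [mem_ball]; linarith, ball_subset (by linarith)⟩

theorem ev_small (hS : Sq s Γ τ K βf e d ℓ G Φ μ c) {R : ℝ} (hR : 0 < R) :
    ∀ᶠ J in UF, 4 * ℓ J < R := by
  filter_upwards [(l_lim hS).eventually (eventually_lt_nhds (show (0 : ℝ) < R / 4 by linarith))]
    with J hJ
  linarith

/-- The cell of `z` is eventually active and its tube contains the smaller disc. -/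
theorem ev (hB : BASIC) (hS : Sq s Γ τ K βf e d ℓ G Φ μ c) {z : ℂ} (hz : z ∉ closure s.W)
    {ρ : ℝ} (hρ : ρ < τ / 50) : ∀ᶠ J in UF, act s.W (ℓ J) (cl (ℓ J) z) ∧
      ball (s.F 0 z + τ * actr) ρ ⊆ tube (s.F 0) τ (ℓ J) (cl (ℓ J) z) := by
  obtain ⟨R, hR, h1, h2⟩ := loc s τ hz hρ
  filter_upwards [ev_small hS hR] with J hJ
  obtain ⟨h3, h4⟩ := cell_sub hB (hS.cells J).l0 z hJ
  exact ⟨h1.mono_left h4, h2 _ h3⟩

theorem ev1 (hB : BASIC) (hS : Sq s Γ τ K βf e d ℓ G Φ μ c) {z w : ℂ} (hz : z ∉ closure s.W)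
    (hw : w ∈ ball (s.F 0 z + τ * actr) (τ / 50)) : ∀ᶠ J in UF, act s.W (ℓ J) (cl (ℓ J) z) ∧
      w ∈ tube (s.F 0) τ (ℓ J) (cl (ℓ J) z) := by
  obtain ⟨ρ, hρ, hw2⟩ := exists_lt_mem_ball_of_mem_ball hw
  filter_upwards [ev hB hS hz hρ] with J hJ
  exact ⟨hJ.1, hJ.2 hw2⟩

theorem ev_bd (hB : BASIC) (hS : Sq s Γ τ K βf e d ℓ G Φ μ c) {z w : ℂ} (hz : z ∉ closure s.W)
    (hw : w ∈ ball (s.F 0 z + τ * actr) (τ / 50)) :
    ∀ᶠ J in UF, ‖Φ J (cl (ℓ J) z) w‖ ≤ K := by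
  filter_upwards [ev1 hB hS hz hw] with J hJ
  exact ((hS.cells J).wh _ hJ.1).bg w hJ.2

theorem cvg (hB : BASIC) (hS : Sq s Γ τ K βf e d ℓ G Φ μ c) {z w : ℂ} (hz : z ∉ closure s.W)
    (hw : w ∈ ball (s.F 0 z + τ * actr) (τ / 50)) :
    Tendsto (fun J => Φ J (cl (ℓ J) z) w) UF (𝓝 (phi ℓ Φ z w)) :=
  bddlim _ K (ev_bd hB hS hz hw)

/-- Passing a quadratic bound to the limit. -/
theorem lim_sq {a b m : ℕ → ℂ} {a' b' m' t : ℂ} {C : ℝ} {d : ℕ → ℝ} (hd : Tendsto d UF (𝓝 0))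
    (ha : Tendsto a UF (𝓝 a')) (hb : Tendsto b UF (𝓝 b')) (hm : Tendsto m UF (𝓝 m'))
    (h : ∀ᶠ J in UF, ‖a J - b J - m J * t‖ ≤ C * (‖t‖ + d J) ^ 2) :
    ‖a' - b' - m' * t‖ ≤ C * ‖t‖ ^ 2 := by
  have := uf_ne
  have h1 : Tendsto (fun J => ‖a J - b J - m J * t‖) UF (𝓝 ‖a' - b' - m' * t‖) :=
    ((ha.sub hb).sub (hm.mul_const t)).norm
  have h2 : Tendsto (fun J => C * (‖t‖ + d J) ^ 2) UF (𝓝 (C * (‖t‖ + 0) ^ 2)) :=
    ((tendsto_const_nhds.add hd).pow 2).const_mul C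
  rw [add_zero] at h2
  exact le_of_tendsto_of_tendsto h1 h2 h

/-- Passing a linear bound to the limit. -/
theorem lim_lin {a b : ℕ → ℂ} {a' b' : ℂ} {C t : ℝ} {d : ℕ → ℝ} (hd : Tendsto d UF (𝓝 0))
    (ha : Tendsto a UF (𝓝 a')) (hb : Tendsto b UF (𝓝 b'))
    (h : ∀ᶠ J in UF, ‖a J - b J‖ ≤ C * (t + d J)) : ‖a' - b'‖ ≤ C * t := by
  have := uf_ne
  have h1 : Tendsto (fun J => ‖a J - b J‖) UF (𝓝 ‖a' - b'‖) := (ha.sub hb).norm
  have h2 : Tendsto (fun J => C * (t + d J)) UF (𝓝 (C * (t + 0))) :=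
    (tendsto_const_nhds.add hd).const_mul C
  rw [add_zero] at h2
  exact le_of_tendsto_of_tendsto h1 h2 h

theorem lim_hw (hB : BASIC) (hS : Sq s Γ τ K βf e d ℓ G Φ μ c) {z : ℂ} (hz : z ∉ closure s.W) :
    DifferentiableOn ℂ (phi ℓ Φ z) (ball (s.F 0 z + τ * actr) (τ / 50)) := by
  intro w hw
  obtain ⟨ρ, hρ, hw2⟩ := exists_lt_mem_ball_of_mem_ball hw
  have hev := ev hB hS hz hρ
  have hm : Tendsto (fun J => μ J (cl (ℓ J) z) w) UF
      (𝓝 (limUnder UF fun J => μ J (cl (ℓ J) z) w)) := by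
    refine bddlim _ K ?_
    filter_upwards [hev] with J hJ
    exact ((hS.cells J).wh _ hJ.1).bm w (hJ.2 hw2)
  refine (hasDerivAt_of_sq (C := K) (m := limUnder UF fun J => μ J (cl (ℓ J) z) w)
    ?_).differentiableAt.differentiableWithinAt
  filter_upwards [isOpen_ball.mem_nhds hw2] with y hy
  refine lim_sq (d_lim hS) (cvg hB hS hz (ball_subset_ball hρ.le hy)) (cvg hB hS hz hw) hm ?_
  filter_upwards [hev] with J hJ
  exact ((hS.cells J).wh _ hJ.1).tay w (hJ.2 hw2) y (hJ.2 hy)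

theorem lim_bd (hB : BASIC) (hS : Sq s Γ τ K βf e d ℓ G Φ μ c) {z w : ℂ} (hz : z ∉ closure s.W)
    (hw : w ∈ ball (s.F 0 z + τ * actr) (τ / 50)) : ‖phi ℓ Φ z w‖ ≤ K := by
  have := uf_ne
  exact le_of_tendsto (cvg hB hS hz hw).norm (ev_bd hB hS hz hw)

theorem lim_fl (hB : BASIC) (hS : Sq s Γ τ K βf e d ℓ G Φ μ c) {z w w' : ℂ}
    (hz : z ∉ closure s.W) (he : z ∈ ball e (1 / 10))
    (hw : w ∈ ball (s.F 0 z + τ * actr) (τ / 50))
    (hw' : w' ∈ ball (s.F 0 z + τ * actr) (τ / 50)) : phi ℓ Φ z w = phi ℓ Φ z w' := by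
  obtain ⟨R, hR, hsub⟩ := Metric.isOpen_iff.1 isOpen_ball z he
  have h : ‖phi ℓ Φ z w - phi ℓ Φ z w'‖ ≤ K * 0 := by
    refine lim_lin (d_lim hS) (cvg hB hS hz hw) (cvg hB hS hz hw') ?_
    filter_upwards [ev1 hB hS hz hw, ev1 hB hS hz hw', ev_small hS hR] with J h1 h2 h3
    rw [zero_add]
    exact (hS.cells J).flat _ h1.1 ((cell_sub hB (hS.cells J).l0 z h3).2.trans hsub) w h1.2 w' h2.2
  rw [mul_zero] at h
  exact sub_eq_zero.1 (norm_le_zero_iff.1 h)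

theorem lim_un (hB : BASIC) (hU : UL) (hS : Sq s Γ τ K βf e d ℓ G Φ μ c) {z : ℂ}
    (hz : z ∉ closure s.W) : TendstoUniformlyOn (fun J w => Φ J (cl (ℓ J) z) w) (phi ℓ Φ z) UF
      (ball (s.F 0 z + τ * actr) (τ / 60)) := by
  have hτ := hS.t0
  have hK := hS.K1
  have hρ : τ / 60 < τ / 50 := by linarith
  refine (hU UF (fun J w => Φ J (cl (ℓ J) z) w) (phi ℓ Φ z) _ (K * (τ + 2)) d uf_ne
    isBounded_ball (d_lim hS) (fun x hx => cvg hB hS hz (ball_subset_ball hρ.le hx)) ?_).1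
  filter_upwards [ev hB hS hz hρ] with J hJ x hx y hy
  have hW := (hS.cells J).wh _ hJ.1
  have h1 := hW.tay y (hJ.2 hy) x (hJ.2 hx)
  have h2 := hW.bm y (hJ.2 hy)
  have hd0 := (hS.cells J).d0
  have hd1 := (hS.cells J).d1
  have h3 : ‖x - y‖ ≤ τ := by
    have h4 := dist_triangle_right x y (s.F 0 z + τ * actr)
    rw [mem_ball] at hx hy
    rw [← dist_eq_norm]
    linarith
  have h5 : ‖Φ J (cl (ℓ J) z) x - Φ J (cl (ℓ J) z) y‖ ≤
      ‖Φ J (cl (ℓ J) z) x - Φ J (cl (ℓ J) z) y - μ J (cl (ℓ J) z) y * (x - y)‖ +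
        ‖μ J (cl (ℓ J) z) y * (x - y)‖ := norm_le_norm_sub_add _ _
  rw [norm_mul] at h5
  have h6 := norm_nonneg (x - y)
  have h7 : ‖μ J (cl (ℓ J) z) y‖ * ‖x - y‖ ≤ K * (‖x - y‖ + d J) :=
    mul_le_mul h2 (by linarith) h6 (by linarith)
  have h8 : (‖x - y‖ + d J) ^ 2 ≤ (τ + 1) * (‖x - y‖ + d J) := by
    rw [sq]
    exact mul_le_mul_of_nonneg_right (by linarith) (by linarith)
  have h9 : K * (‖x - y‖ + d J) ^ 2 ≤ K * ((τ + 1) * (‖x - y‖ + d J)) :=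
    mul_le_mul_of_nonneg_left h8 (by linarith)
  calc _ ≤ K * ((τ + 1) * (‖x - y‖ + d J)) + K * (‖x - y‖ + d J) := by linarith
    _ = K * (τ + 2) * (‖x - y‖ + d J) := by ring

theorem ev_d (hS : Sq s Γ τ K βf e d ℓ G Φ μ c) {R : ℝ} (hR : 0 < R) :
    ∀ᶠ J in UF, 10 * d J ≤ R := by
  filter_upwards [(d_lim hS).eventually (eventually_lt_nhds (show (0 : ℝ) < R / 10 by linarith))]
    with J hJ
  linarith

/-- The disc around `z` that is used for the derivative in the first variable. -/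
theorem loc8 (s : Core n) (τ : ℝ) {z w : ℂ} (hz : z ∉ closure s.W)
    (hw : w ∈ ball (s.F 0 z + τ * actr) (τ / 50)) (A : Set Seg) (hA : A.Finite)
    (hg : ∀ g ∈ A, z ∉ segment ℝ g.p g.v) :
    ∃ R > 0, Disjoint (ball z (8 * R)) (closure s.W) ∧
      (∀ y ∈ ball z (8 * R), w ∈ ball (s.F 0 y + τ * actr) (τ / 50)) ∧
      ∀ g ∈ A, Disjoint (ball z (8 * R)) (segment ℝ g.p g.v) := by
  obtain ⟨ρ, hρ, hw2⟩ := exists_lt_mem_ball_of_mem_ball hw
  obtain ⟨R1, hR1, h1, h2⟩ := loc s τ hz hρ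
  obtain ⟨R2, hR2, h3⟩ := far_segs A hA z hg
  have e1 : 8 * (min R1 R2 / 8) = min R1 R2 := by ring
  refine ⟨min R1 R2 / 8, by have := lt_min hR1 hR2; linarith, ?_, fun y hy => ?_, fun g hg => ?_⟩
  · rw [e1]
    exact h1.mono_left (ball_subset_ball (min_le_left _ _))
  · rw [e1] at hy
    exact h2 y (ball_subset_ball (min_le_left _ _) hy) hw2
  · rw [e1]
    exact (h3 g hg).mono_left (ball_subset_ball (min_le_right _ _))

theorem off_gap (hB : BASIC) (h2 : LA2) (hS : Sq s Γ τ K βf e d ℓ G Φ μ c) {z w : ℂ}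
    (hz : z ∉ closure s.W) (hw : w ∈ ball (s.F 0 z + τ * actr) (τ / 50))
    (hg : ∀ g ∈ Γ, z ∉ segment ℝ g.p g.v) : DifferentiableAt ℂ (fun x => phi ℓ Φ x w) z := by
  obtain ⟨R, hR, hD, hT, hG⟩ := loc8 s τ hz hw Γ hS.gaps.fin hg
  have hm : Tendsto (fun J => c J (cl (ℓ J) z) w) UF
      (𝓝 (limUnder UF fun J => c J (cl (ℓ J) z) w)) := by
    refine bddlim _ K ?_
    filter_upwards [ev1 hB hS hz hw] with J hJ
    exact (hS.cells J).cb _ hJ.1 w hJ.2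
  refine (hasDerivAt_of_sq (f := fun x => phi ℓ Φ x w) (C := 1000 * K)
    (m := limUnder UF fun J => c J (cl (ℓ J) z) w) ?_).differentiableAt
  filter_upwards [ball_mem_nhds z hR] with y hy
  have hy8 : y ∈ ball z (8 * R) := ball_subset_ball (by linarith) hy
  refine lim_sq (d_lim hS) (cvg hB hS (Set.disjoint_left.1 hD hy8) (hT y hy8))
    (cvg hB hS hz hw) hm ?_
  filter_upwards [ev_d hS hR] with J hJ
  exact h2 _ _ _ _ _ _ _ _ _ _ _ _ _ (hS.cells J) hS.K1 z w R hJ hD (fun Q hQ => hT _ hQ) hG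
    z (mem_ball_self hR) y hy

theorem seg_re {p v y : ℂ} (h : p.re = v.re) (hy : y ∈ segment ℝ p v) : y.re = p.re := by
  obtain ⟨a, b, -, -, hab, rfl⟩ := hy
  simp only [Complex.add_re, Complex.real_smul, Complex.mul_re, Complex.ofReal_re,
    Complex.ofReal_im, zero_mul, sub_zero]
  rw [← h, ← add_mul, hab, one_mul]

theorem on_gap (hB : BASIC) (h1 : LA1) (h2 : LA2) (hP : PAIN)
    (hS : Sq s Γ τ K βf e d ℓ G Φ μ c) {z w : ℂ} (hz : z ∉ closure s.W)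
    (hw : w ∈ ball (s.F 0 z + τ * actr) (τ / 50)) {g : Seg} (hg : g ∈ Γ)
    (hzg : z ∈ segment ℝ g.p g.v) : DifferentiableAt ℂ (fun x => phi ℓ Φ x w) z := by
  have hK := hS.K1
  have hop : z ∈ openSegment ℝ g.p g.v :=
    mem_openSegment_of_ne_left_right (fun h => hz (h ▸ (hS.gaps.ends g hg).1))
      (fun h => hz (h ▸ (hS.gaps.ends g hg).2)) hzg
  obtain ⟨R, hR, hD, hT, hG⟩ := loc8 s τ hz hw {g' | g' ∈ Γ ∧ g' ≠ g}
    (hS.gaps.fin.subset fun g' h => h.1)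
    (fun g' h => Set.disjoint_left.1 (hS.gaps.cross g hg g' h.1 (Ne.symm h.2)) hop)
  have h8 : ball z R ⊆ ball z (8 * R) := ball_subset_ball (by linarith)
  have hL : ∀ x ∈ ball z R, ∀ y ∈ ball z R,
      ‖phi ℓ Φ x w - phi ℓ Φ y w‖ ≤ 100 * K * ‖x - y‖ := by
    intro x hx y hy
    refine lim_lin (d_lim hS) (cvg hB hS (Set.disjoint_left.1 hD (h8 hx)) (hT x (h8 hx)))
      (cvg hB hS (Set.disjoint_left.1 hD (h8 hy)) (hT y (h8 hy))) ?_
    filter_upwards [ev_d hS hR] with J hJ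
    exact h1 _ _ _ _ _ _ _ _ _ _ _ _ _ _ hS.gaps (hS.cells J) hK z w R hJ hD
      (fun Q hQ => hT _ hQ) (Or.inr ⟨g, hg, hzg, fun g' hg' hne => hG g' ⟨hg', hne⟩⟩) x hx y hy
  have hC : ContinuousOn (fun x => phi ℓ Φ x w) (ball z R) := by
    have hLip : LipschitzOnWith (Real.toNNReal (100 * K)) (fun x => phi ℓ Φ x w) (ball z R) := by
      refine LipschitzOnWith.of_dist_le' fun x hx y hy => ?_
      rw [dist_eq_norm, dist_eq_norm]
      exact hL x hx y hy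
    exact hLip.continuousOn
  refine (hP _ z I z R Complex.I_ne_zero hC fun y hy hne => ?_).differentiableAt
    (ball_mem_nhds z hR)
  refine off_gap hB h2 hS (Set.disjoint_left.1 hD (h8 hy)) (hT y (h8 hy)) fun g' hg' hy' => ?_
  by_cases hgg : g' = g
  · subst hgg
    apply hne
    have e1 := seg_re (hS.gaps.vert g' hg') hy'
    have e2 := seg_re (hS.gaps.vert g' hg') hzg
    simp [e1, e2]
  · exact Set.disjoint_left.1 (hG g' ⟨hg', hgg⟩) (h8 hy) hy'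

end

theorem lima : R_LIMA := by
  intro hB h1 h2 hU hP n s Γ τ K βf e d ℓ G Φ μ c hS
  refine ⟨fun z hz => lim_hw hB hS hz, fun z hz w hw => ?_,
    fun z hz he w hw w' hw' => lim_fl hB hS hz he hw hw', fun z hz w hw => lim_bd hB hS hz hw,
    fun z hz => lim_un hB hU hS hz⟩
  by_cases h : ∃ g ∈ Γ, z ∈ segment ℝ g.p g.v
  · obtain ⟨g, hg, hzg⟩ := h
    exact on_gap hB h1 h2 hP hS hz hw hg hzg
  · exact off_gap hB h2 hS hz hw fun g hg hzg => h ⟨g, hg, hzg⟩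

end Pool.Agent.MP_d32a63_an.H96
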